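import Pool.Agent.J4H48.HK.Cnt
import Pool.Agent.J4H48.HK.Main
import Pool.Agent.J4H48.HK.Pair
import Pool.Agent.J4H48.HK.Close
import Pool.Agent.J4H48.HK.Prob
import Pool.Agent.J4H79.HK.Size
import Pool.Agent.J4H79.HK.Int
import Pool.Agent.J4H79.HK.Norm
import Pool.Agent.J4H79.HK.Cell
import Pool.Agent.J4H72.HK.Red
import Pool.Agent.J4H72.HK.Lat
import Pool.Agent.J4H72.HK.Full

/-!
# Nearly all maps in every short interval of constants have no periodic point of degree `< d`

Let `K` be a number field, `F` a polynomial of degree `d ≥ 2` over the integers of `K`, and let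
`b ≠ 0` and `e` be integers of `K`. For every `B < d`, in every interval of `m` rational integers
`c`, wherever it lies, for all but `C m ^ (B / d)` of the `c` the generalized Hénon map
`(x, y) ↦ (y, (F(y) + c - e x) / b)` has no periodic point `P` with `[K(P) : K] ≤ B`. The range
`B < d` and (if `B` divides `d`) the exponent `B / d` are best possible over every `K`.

Proof. Multiplied by the leading coefficient of `F`, the coordinates of a cycle are algebraic
integers `z` with `G(z) + A c = α z' + β z''`, `G` monic. In each embedding they lie next to the `d`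
roots of `G = -A c`, which move slowly with `c`. If `c` moves by less than `c ^ (1 - B / d)` and the
`z` stay next to the same roots, the relative characteristic polynomials of the `z` (of degree
`≤ B` over `K`) move by a bounded amount, so that they take boundedly many values, since the integers
of `K` are discrete. Three consecutive ones determine `c` up to boundedly many values. The interval
is covered by `C m ^ (B / d)` such cells.
-/

set_option autoImplicit false

namespace Pool.Agent.Results.MP_0e6b5f_nt.EveryNumberField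

open Polynomial NumberField MeasureTheory Filter Pool.Agent.J4H48.HK

theorem main : S_MAIN :=
  t_MAIN (Pool.Agent.J4H72.HK.t_RED Pool.Agent.J4H79.HK.t_SIZE Pool.Agent.J4H79.HK.t_INT
    Pool.Agent.J4H79.HK.t_NORM) (t_CNT (t_CLOSE t_PAIR) Pool.Agent.J4H79.HK.t_CELL)
    Pool.Agent.J4H72.HK.t_LAT

universe u

/-- Part 1: for every number field `K`, every polynomial `F` of degree `d ≥ 2` over the integers of
`K`, all integers `b ≠ 0` and `e` of `K` and every `B < d` there is a `C` such that in every interval
of `m` rational integers `c` for at most `C m ^ (B / d)` of the `c` the map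
`(x, y) ↦ (y, (F(y) + c - e x) / b)` has a periodic point `P` with `[K(P) : K] ≤ B`. Part 2: the
exponent is best possible over every `K` if `B` divides `d`. Part 3: the range `B < d` is best
possible: every such map has a periodic point of degree at most `d`. Part 4: let the integers `ξ n`
be random in intervals of length `m n`, each value with probability at most `κ / m n` (no
independence), with a finite sum of the `(m n) ^ (-1 / d₀)`. Then, almost surely, for all `F`, `b`,
`e` over `K` with `2 ≤ deg F ≤ d₀`, for all but finitely many `n`, the map with the constant `ξ n` has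
no periodic point of degree less than `deg F` over `K`. -/
theorem result :
    (∀ (K : Type) [Field K] [NumberField K] (F : (𝓞 K)[X]) (b e : 𝓞 K) (B : ℕ),
      2 ≤ F.natDegree → b ≠ 0 → 1 ≤ B → B < F.natDegree → ∃ C : ℝ, 1 ≤ C ∧
        ∀ (a : ℤ) (m : ℕ), 1 ≤ m →
          (({k : ℤ | a ≤ k ∧ k < a + m ∧ HasPer K F b e k B}.ncard : ℕ) : ℝ) ≤
            C * (m : ℝ) ^ ((B : ℝ) / F.natDegree)) ∧
    (∀ (K : Type) [Field K] [NumberField K] (B q : ℕ), 1 ≤ B → 1 ≤ q → 2 ≤ B * q → ∀ k : ℕ,
      k ≤ {c : ℤ | 1 - (k : ℤ) ^ q ≤ c ∧ c < 1 - (k : ℤ) ^ q + (k ^ q : ℕ) ∧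
        HasPer K (X ^ (B * q)) 1 (-1) c B}.ncard) ∧
    (∀ (K : Type) [Field K] [NumberField K] (F : (𝓞 K)[X]) (b e : 𝓞 K) (c : ℤ),
      2 ≤ F.natDegree → b ≠ 0 → HasPer K F b e c F.natDegree) ∧
    (∀ (K : Type) [Field K] [NumberField K] (Ω : Type u) [MeasurableSpace Ω] (μ : Measure Ω)
      (ξ : ℕ → Ω → ℤ) (a : ℕ → ℤ) (m : ℕ → ℕ) (κ : ℝ) (d₀ : ℕ), (∀ n, 1 ≤ m n) → 0 ≤ κ →
      (∀ n, Noise μ (ξ n) (a n) (m n) κ) → (Summable fun n => (m n : ℝ) ^ (-(1 / (d₀ : ℝ)))) →
      ∀ᵐ ω ∂μ, ∀ (F : (𝓞 K)[X]) (b e : 𝓞 K), 2 ≤ F.natDegree → F.natDegree ≤ d₀ → b ≠ 0 →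
        ∀ᶠ n in atTop, ¬ HasPer K F b e (ξ n ω) (F.natDegree - 1)) :=
  ⟨main, Pool.Agent.J4H72.HK.t_SHARP, Pool.Agent.J4H72.HK.t_FULL,
    fun K _ _ _ _ μ ξ a m κ d₀ hm hκ hξ hs => t_AS main K μ ξ a m κ d₀ hm hκ hξ hs⟩

end Pool.Agent.Results.MP_0e6b5f_nt.EveryNumberField
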